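import Pool.Agent.H93.ET.Defs

/-!
# MP_de9001_an, board `gth_modules`: row BRK
-/

set_option autoImplicit false

namespace Pool.Agent.H79.ET

open Pool.Agent.H93.ET

/-- position and length of the windows -/
noncomputable def st (d : ℕ → ℝ) (n0 : ℕ) : ℕ → ℕ × ℕ
  | 0 => (n0, 1)
  | m + 1 => ((st d n0 m).1 + (st d n0 m).2,
      min (2 * (st d n0 m).2) ⌊d ((st d n0 m).1 + (st d n0 m).2) / 36⌋₊)

theorem brk : T_BRK := by
  intro d hd hmono hsum
  -- the starting point
  obtain ⟨n0, hn0⟩ : ∃ n0, 36 ≤ d n0 := by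
    have h1 := hsum.tendsto_atTop_zero
    have h2 := (h1.eventually_lt_const (by norm_num : (0 : ℝ) < 1 / 36 ^ 2)).exists
    obtain ⟨n, hn⟩ := h2
    refine ⟨n, ?_⟩
    by_contra hcon
    push Not at hcon
    have h3 : d n ^ 2 ≤ 36 ^ 2 := by
      have := hd n
      nlinarith
    have h4 : 1 / (36 : ℝ) ^ 2 ≤ 1 / d n ^ 2 :=
      one_div_le_one_div_of_le (by have := hd n; positivity) h3
    linarith
  obtain ⟨b, hb⟩ : ∃ b : ℕ → ℕ, b = fun m => (st d n0 m).1 := ⟨_, rfl⟩
  obtain ⟨l, hl⟩ : ∃ l : ℕ → ℕ, l = fun m => (st d n0 m).2 := ⟨_, rfl⟩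
  have hb0 : b 0 = n0 := by rw [hb]; rfl
  have hl0 : l 0 = 1 := by rw [hl]; rfl
  have hbs : ∀ m, b (m + 1) = b m + l m := by
    intro m
    rw [hb, hl]
    rfl
  have hls : ∀ m, l (m + 1) = min (2 * l m) ⌊d (b (m + 1)) / 36⌋₊ := by
    intro m
    rw [hbs, hb, hl]
    rfl
  have hbge : ∀ m, n0 ≤ b m := by
    intro m
    induction m with
    | zero => rw [hb0]
    | succ m ih =>
      rw [hbs]
      omega
  have hd36 : ∀ m, 36 ≤ d (b m) := fun m => hn0.trans (hmono (hbge m))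
  have hF1 : ∀ m, 1 ≤ ⌊d (b m) / 36⌋₊ := by
    intro m
    apply Nat.le_floor
    rw [Nat.cast_one, le_div_iff₀ (by norm_num)]
    linarith [hd36 m]
  have hl1 : ∀ m, 1 ≤ l m := by
    intro m
    induction m with
    | zero => rw [hl0]
    | succ m ih =>
      rw [hls]
      exact le_min (by omega) (hF1 _)
  have hl36 : ∀ m, 36 * (l m : ℝ) ≤ d (b m) := by
    intro m
    cases m with
    | zero =>
      rw [hl0, Nat.cast_one]
      linarith [hd36 0]
    | succ m =>
      have h1 : l (m + 1) ≤ ⌊d (b (m + 1)) / 36⌋₊ := by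
        rw [hls]
        exact min_le_right _ _
      have h2 : (l (m + 1) : ℝ) ≤ d (b (m + 1)) / 36 :=
        (Nat.cast_le.2 h1).trans (Nat.floor_le (by have := hd (b (m + 1)); positivity))
      linarith
  have hdiff : ∀ m, (b (m + 1) : ℝ) - b m = l m := by
    intro m
    rw [hbs]
    push_cast
    ring
  have hstrict : StrictMono b := by
    apply strictMono_nat_of_lt_succ
    intro m
    rw [hbs]
    have := hl1 m
    omega
  -- summability
  obtain ⟨c, hc⟩ : ∃ c : ℕ → ℝ, c = fun m => ∑ n ∈ Finset.Ico (b m) (b (m + 1)), 1 / d n ^ 2 :=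
    ⟨_, rfl⟩
  have hstep : ∀ m, 1 / (l (m + 1) : ℝ) ≤ 1 / (l m : ℝ) / 2 + 2 * 72 ^ 2 * c m := by
    intro m
    have hlm : (1 : ℝ) ≤ l m := by exact_mod_cast hl1 m
    have hcm : (l m : ℝ) * (1 / d (b (m + 1)) ^ 2) ≤ c m := by
      rw [hc]
      have h1 : ∀ n ∈ Finset.Ico (b m) (b (m + 1)), 1 / d (b (m + 1)) ^ 2 ≤ 1 / d n ^ 2 := by
        intro n hn
        have h2 := (Finset.mem_Ico.1 hn).2
        have h3 : d n ≤ d (b (m + 1)) := hmono h2.le
        have h4 := hd n
        exact one_div_le_one_div_of_le (by positivity) (pow_le_pow_left₀ h4.le h3 2)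
      have h2 := Finset.sum_le_sum h1
      rw [Finset.sum_const, Nat.card_Ico, nsmul_eq_mul] at h2
      have h3 : ((b (m + 1) - b m : ℕ) : ℝ) = l m := by
        rw [hbs, Nat.add_sub_cancel_left]
      rw [h3] at h2
      exact h2
    have hcm0 : 0 ≤ c m := by
      refine le_trans ?_ hcm
      have := hd (b (m + 1))
      positivity
    rcases min_choice (2 * l m) ⌊d (b (m + 1)) / 36⌋₊ with h | h
    · rw [← hls] at h
      rw [h]
      push_cast
      have h5 : 1 / (2 * (l m : ℝ)) = 1 / (l m : ℝ) / 2 := by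
        rw [div_div, mul_comm]
      rw [h5]
      nlinarith
    · rw [← hls] at h
      have hD := hd (b (m + 1))
      have hF : 1 ≤ l (m + 1) := hl1 _
      have hF' : (1 : ℝ) ≤ l (m + 1) := by exact_mod_cast hF
      have h6 : d (b (m + 1)) / 36 < (l (m + 1) : ℝ) + 1 := by
        rw [h]
        exact Nat.lt_floor_add_one _
      have h7 : d (b (m + 1)) ≤ 72 * l (m + 1) := by linarith
      have h8 : (l (m + 1) : ℝ) ≤ 2 * l m := by
        have h9 : l (m + 1) ≤ 2 * l m := by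
          rw [hls]
          exact min_le_left _ _
        exact_mod_cast h9
      have h10 : 1 / (l (m + 1) : ℝ) ≤ 2 * 72 ^ 2 * ((l m : ℝ) * (1 / d (b (m + 1)) ^ 2)) := by
        have h11 : d (b (m + 1)) ^ 2 ≤ 72 ^ 2 * (l (m + 1) : ℝ) ^ 2 := by
          have := pow_le_pow_left₀ hD.le h7 2
          rwa [mul_pow] at this
        have h12 : 2 * 72 ^ 2 * ((l m : ℝ) * (1 / d (b (m + 1)) ^ 2)) =
            2 * 72 ^ 2 * l m / d (b (m + 1)) ^ 2 := by ring
        rw [h12, div_le_div_iff₀ (by linarith) (by positivity), one_mul]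
        refine h11.trans ?_
        have h13 : (l (m + 1) : ℝ) ^ 2 = l (m + 1) * l (m + 1) := by ring
        rw [h13]
        have h14 : (l (m + 1) : ℝ) * l (m + 1) ≤ 2 * l m * l (m + 1) :=
          mul_le_mul_of_nonneg_right h8 (by linarith)
        linarith
      have h15 : 2 * 72 ^ 2 * ((l m : ℝ) * (1 / d (b (m + 1)) ^ 2)) ≤ 2 * 72 ^ 2 * c m :=
        mul_le_mul_of_nonneg_left hcm (by norm_num)
      have h16 : 0 ≤ 1 / (l m : ℝ) / 2 := by positivity
      linarith
  have hnn : ∀ n, 0 ≤ 1 / d n ^ 2 := fun n => by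
    have := hd n
    positivity
  have hcs : ∀ M, ∑ m ∈ Finset.range M, c m ≤ ∑' n, 1 / d n ^ 2 := by
    intro M
    have h1 : ∑ m ∈ Finset.range M, c m = ∑ n ∈ Finset.Ico (b 0) (b M), 1 / d n ^ 2 := by
      induction M with
      | zero => simp
      | succ M ih =>
        rw [Finset.sum_range_succ, ih, hc]
        exact Finset.sum_Ico_consecutive _ (hstrict.monotone (Nat.zero_le M))
          (hstrict.monotone (Nat.le_succ M))
    rw [h1]
    exact hsum.sum_le_tsum _ (fun n _ => hnn n)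
  obtain ⟨T, hT⟩ : ∃ T : ℝ, T = ∑' n, 1 / d n ^ 2 := ⟨_, rfl⟩
  rw [← hT] at hcs
  have hlnn : ∀ m, 0 ≤ 1 / (l m : ℝ) := fun m => by positivity
  have hbound : ∀ M, ∑ m ∈ Finset.range M, 1 / (l m : ℝ) ≤ 2 * (1 + 2 * 72 ^ 2 * T) := by
    intro M
    have h1 : ∑ m ∈ Finset.range M, 1 / (l m : ℝ) ≤ ∑ m ∈ Finset.range (M + 1), 1 / (l m : ℝ) := by
      rw [Finset.sum_range_succ]
      linarith [hlnn M]
    have h2 : ∑ m ∈ Finset.range (M + 1), 1 / (l m : ℝ) =
        ∑ m ∈ Finset.range M, 1 / (l (m + 1) : ℝ) + 1 := by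
      rw [Finset.sum_range_succ', hl0, Nat.cast_one, div_one]
    have h3 : ∑ m ∈ Finset.range M, 1 / (l (m + 1) : ℝ) ≤
        (∑ m ∈ Finset.range M, 1 / (l m : ℝ)) / 2 + 2 * 72 ^ 2 * ∑ m ∈ Finset.range M, c m := by
      rw [Finset.sum_div, Finset.mul_sum, ← Finset.sum_add_distrib]
      exact Finset.sum_le_sum fun m _ => hstep m
    have h4 := hcs M
    linarith
  refine ⟨b, hstrict, ?_, ?_, ?_⟩
  · intro m
    rw [hdiff]
    exact hl36 m
  · intro m
    rw [hbs (m + 1), Nat.add_sub_cancel_left, hbs m, Nat.add_sub_cancel_left, hls]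
    exact min_le_left _ _
  · have h : (fun m => 1 / ((b (m + 1) : ℝ) - b m)) = fun m => 1 / (l m : ℝ) :=
      funext fun m => by rw [hdiff]
    rw [h]
    exact summable_of_sum_range_le hlnn hbound

end Pool.Agent.H79.ET
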