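import Pool.Agent.H93.ET.Defs

/-!
# MP_de9001_an, board `gth_modules`: row DAT
-/

set_option autoImplicit false

namespace Pool.Agent.H79.ET

open Filter Pool.Agent.H93.ET Pool.Agent.H85.SC

theorem dat (h1 : T_BRK) (h2 : T_SEG) : T_DAT := by
  classical
  intro d hd hmono hsum
  obtain ⟨b, hb, hd36, hdbl, hbs⟩ := h1 d hd hmono hsum
  have hlpos : ∀ m, 0 < (b (m + 1) : ℝ) - b m := by
    intro m
    have h3 : (b m : ℝ) < b (m + 1) := by exact_mod_cast hb (Nat.lt_succ_self m)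
    linarith
  -- `d (b m)` is large
  have hlarge : ∀ B : ℝ, ∃ n0, ∀ m ≥ n0, B ≤ d (b m) := by
    intro B
    have h3 := hbs.tendsto_atTop_zero
    obtain ⟨B', hB'⟩ : ∃ B' : ℝ, B' = |B| + 1 := ⟨_, rfl⟩
    have hB'0 : 0 < B' := by rw [hB']; positivity
    obtain ⟨n0, hn0⟩ := eventually_atTop.1
      (h3.eventually_lt_const (by positivity : (0 : ℝ) < 36 / B'))
    refine ⟨n0, fun m hm => ?_⟩
    have h4 := hn0 m hm
    have h5 := hlpos m
    rw [div_lt_div_iff₀ h5 hB'0, one_mul] at h4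
    have h6 := hd36 m
    have h7 := le_abs_self B
    linarith
  choose M hM using fun k : ℕ => h2 b hb hbs (3 ^ k) ((1 / 2) ^ k) (by positivity) (by positivity)
  have hbid : ∀ m, m ≤ b m := hb.id_le
  have hnext : ∀ k m : ℕ, ∃ m' : ℕ, m < m' ∧ M (k + 1) ≤ m' ∧ 20 * b m ≤ b m' ∧ LL k ≤ b m' ∧
      (LL k : ℝ) + 12 * ((b m' : ℝ) - b (m' - 1)) ≤ d (b (m' - 1)) := by
    intro k m
    obtain ⟨n0, hn0⟩ := hlarge (2 * LL k)
    obtain ⟨a, ha⟩ : ∃ a : ℕ, a = m + M (k + 1) + 20 * b m + LL k + n0 := ⟨_, rfl⟩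
    refine ⟨a + 1, by omega, by omega, ?_, ?_, ?_⟩
    · have := hbid (a + 1)
      omega
    · have := hbid (a + 1)
      omega
    · rw [Nat.add_sub_cancel]
      have h3 := hn0 a (by omega)
      have h4 := hd36 a
      have h5 := hd (b a)
      linarith
  choose nx hn1 hn2 hn3 hn4 hn5 using hnext
  obtain ⟨m0, hm0⟩ : ∃ m0 : ℕ, m0 = M 0 + 12 := ⟨_, rfl⟩
  obtain ⟨mu, hmu0, hmus⟩ : ∃ mu : ℕ → ℕ, mu 0 = m0 ∧ ∀ k, mu (k + 1) = nx k (mu k) :=
    ⟨fun k => Nat.rec m0 (fun k m => nx k m) k, rfl, fun k => rfl⟩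
  have hlt : ∀ k, mu k < mu (k + 1) := fun k => by
    rw [hmus]
    exact hn1 k (mu k)
  have hMmu : ∀ k, M k ≤ mu k := by
    intro k
    cases k with
    | zero =>
      rw [hmu0, hm0]
      omega
    | succ k =>
      rw [hmus]
      exact hn2 k (mu k)
  choose g hg1 hg2 hg3 using fun k : ℕ => hM k (mu k) (mu (k + 1)) (hMmu k) (hlt k)
  choose T hT1 hT2 hT3 using hg3
  refine ⟨{
    b := b
    mu := mu
    g := g
    T := fun k m => if h : mu k ≤ m ∧ m < mu (k + 1) then T k m h.1 h.2 else ∅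
    hb := hb
    hmu := strictMono_nat_of_lt_succ hlt
    p0 := ?_
    grow := fun k => by
      rw [hmus]
      exact hn3 k (mu k)
    len := ?_
    gad := fun k => by
      rw [hmus]
      exact hn5 k (mu k)
    gadp := fun k => by
      rw [hmus]
      exact hn4 k (mu k)
    gsupp := hg1
    gnorm := hg2
    hT := ?_ }⟩
  · rw [hmu0, hm0]
    have := hbid (M 0 + 12)
    omega
  · intro m
    have h3 := hdbl m
    have h4 : b (m + 1) < b (m + 2) := hb (Nat.lt_succ_self _)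
    have h5 : b m < b (m + 1) := hb (Nat.lt_succ_self _)
    have h6 : b (m + 2) ≤ b (m + 1) + 2 * (b (m + 1) - b m) := by omega
    have h7 : (b (m + 2) : ℝ) ≤ b (m + 1) + 2 * ((b (m + 1) : ℝ) - b m) := by
      have h8 : ((b (m + 1) - b m : ℕ) : ℝ) = (b (m + 1) : ℝ) - b m := Nat.cast_sub h5.le
      rw [← h8]
      exact_mod_cast h6
    have h9 := hd36 m
    linarith
  · intro k m hm1 hm2
    have hcond : mu k ≤ m ∧ m < mu (k + 1) := ⟨hm1, hm2⟩
    rw [dif_pos hcond]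
    exact ⟨hT1 k m hm1 hm2, hT2 k m hm1 hm2, hT3 k m hm1 hm2⟩

end Pool.Agent.H79.ET
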