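import Pool.Agent.H93.ET.Defs

/-!
# MP_de9001_an, board `gth_modules`: row PHI
-/

set_option autoImplicit false

namespace Pool.Agent.H79.ET

open Set Pool.Agent.H93.ET

lemma hasDerivAt_Phi (x : ℝ) : HasDerivAt Phi (Real.arctan x) x := by
  have h0 : (1 : ℝ) + x ^ 2 ≠ 0 := by positivity
  have h1 : HasDerivAt (fun u : ℝ => u * Real.arctan u)
      (1 * Real.arctan x + x * (1 / (1 + x ^ 2))) x :=
    (hasDerivAt_id x).mul (Real.hasDerivAt_arctan x)
  have h2 : HasDerivAt (fun u : ℝ => 1 + u ^ 2) (2 * x) x := by
    have h := (hasDerivAt_pow 2 x).const_add 1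
    simpa using h
  have h3 : HasDerivAt (fun u : ℝ => Real.log (1 + u ^ 2) / 2) (2 * x / (1 + x ^ 2) / 2) x :=
    (h2.log h0).div_const 2
  have h4 := h1.sub h3
  have e : 1 * Real.arctan x + x * (1 / (1 + x ^ 2)) - 2 * x / (1 + x ^ 2) / 2 =
      Real.arctan x := by
    ring
  rw [e] at h4
  exact h4

theorem phi : T_PHI := by
  intro u k
  obtain ⟨q, hq⟩ : ∃ q : ℝ, q = 1 / (1 + 2 * u ^ 2 + 2 * k ^ 2) := ⟨_, rfl⟩
  have hQ : 0 < 1 + 2 * u ^ 2 + 2 * k ^ 2 := by positivity
  have hqp : 0 < q := by rw [hq]; positivity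
  obtain ⟨R, hR⟩ : ∃ R : ℝ, R = |u| + |k| := ⟨_, rfl⟩
  have hR2 : R ^ 2 ≤ 2 * u ^ 2 + 2 * k ^ 2 := by
    rw [hR]
    have h1 := sq_abs u
    have h2 := sq_abs k
    nlinarith [sq_nonneg (|u| - |k|)]
  -- monotonicity of the derivative
  have hmono : MonotoneOn (fun x : ℝ => Real.arctan x - q * x) (Icc (-R) R) := by
    apply monotoneOn_of_deriv_nonneg (convex_Icc _ _)
    · exact (Real.continuous_arctan.sub (continuous_const.mul continuous_id)).continuousOn
    · exact (Real.differentiable_arctan.sub
        (differentiable_const q |>.mul differentiable_id)).differentiableOn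
    · intro x hx
      rw [interior_Icc] at hx
      have h1 : HasDerivAt (fun x : ℝ => Real.arctan x - q * x) (1 / (1 + x ^ 2) - q * 1) x :=
        (Real.hasDerivAt_arctan x).sub ((hasDerivAt_id x).const_mul q)
      rw [h1.deriv]
      have h2 : x ^ 2 ≤ R ^ 2 := by
        apply sq_le_sq'
        · exact hx.1.le
        · exact hx.2.le
      have h3 : q ≤ 1 / (1 + x ^ 2) := by
        rw [hq]
        apply one_div_le_one_div_of_le (by positivity)
        linarith
      linarith
  obtain ⟨G, hG⟩ : ∃ G : ℝ → ℝ, G = fun x => Phi x - q / 2 * x ^ 2 -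
      (Real.arctan u - q * u) * x := ⟨_, rfl⟩
  have hGd : ∀ x, HasDerivAt G (Real.arctan x - q * x - (Real.arctan u - q * u)) x := by
    intro x
    have h1 : HasDerivAt (fun x : ℝ => q / 2 * x ^ 2) (q / 2 * (2 * x)) x := by
      have h := (hasDerivAt_pow 2 x).const_mul (q / 2)
      simpa using h
    have h2 : HasDerivAt (fun x : ℝ => (Real.arctan u - q * u) * x)
        ((Real.arctan u - q * u) * 1) x := (hasDerivAt_id x).const_mul _
    have h3 := ((hasDerivAt_Phi x).sub h1).sub h2
    rw [hG]
    have e : Real.arctan x - q / 2 * (2 * x) - (Real.arctan u - q * u) * 1 =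
        Real.arctan x - q * x - (Real.arctan u - q * u) := by ring
    rw [e] at h3
    exact h3
  have hGc : Continuous G := by
    rw [continuous_iff_continuousAt]
    exact fun x => (hGd x).continuousAt
  have hGdf : Differentiable ℝ G := fun x => (hGd x).differentiableAt
  have huR : u ∈ Icc (-R) R := by
    rw [hR]
    have h1 := neg_abs_le u
    have h2 := le_abs_self u
    have h3 := abs_nonneg k
    exact ⟨by linarith, by linarith⟩
  have hukR : u - k ∈ Icc (-R) R := by
    rw [hR]
    have h1 := neg_abs_le u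
    have h2 := le_abs_self u
    have h3 := neg_abs_le k
    have h4 := le_abs_self k
    exact ⟨by linarith, by linarith⟩
  have key : G u ≤ G (u - k) := by
    rcases le_total 0 k with hk | hk
    · have hanti : AntitoneOn G (Icc (u - k) u) := by
        apply antitoneOn_of_deriv_nonpos (convex_Icc _ _) hGc.continuousOn
          hGdf.differentiableOn
        intro x hx
        rw [interior_Icc] at hx
        rw [(hGd x).deriv]
        have hxR : x ∈ Icc (-R) R := ⟨hukR.1.trans hx.1.le, hx.2.le.trans huR.2⟩
        have h1 := hmono hxR huR hx.2.le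
        simp only at h1
        linarith
      exact hanti (left_mem_Icc.2 (by linarith)) (right_mem_Icc.2 (by linarith)) (by linarith)
    · have hmon : MonotoneOn G (Icc u (u - k)) := by
        apply monotoneOn_of_deriv_nonneg (convex_Icc _ _) hGc.continuousOn
          hGdf.differentiableOn
        intro x hx
        rw [interior_Icc] at hx
        rw [(hGd x).deriv]
        have hxR : x ∈ Icc (-R) R := ⟨huR.1.trans hx.1.le, hx.2.le.trans hukR.2⟩
        have h1 := hmono huR hxR hx.1.le
        simp only at h1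
        linarith
      exact hmon (left_mem_Icc.2 (by linarith)) (right_mem_Icc.2 (by linarith)) (by linarith)
  rw [hG] at key
  simp only at key
  have e : k ^ 2 / 2 / (1 + 2 * u ^ 2 + 2 * k ^ 2) = q * k ^ 2 / 2 := by
    rw [hq]
    ring
  rw [e]
  nlinarith

end Pool.Agent.H79.ET
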